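import Pool.Agent.R652.CERed

set_option autoImplicit false

namespace Pool.Agent.Results.MP_aec1d5_lc.NonACCNotComplete

open Pool.Agent.R652.RE Pool.Agent.R652.CE

theorem eqv_empty {n : ℕ} {a b : ℕ} (h : Eqv allC n ∅ a b) : a = b := by
  induction h with
  | rel x y h => exact h.1.elim
  | refl x => rfl
  | symm x y _ ih => exact ih.symm
  | trans x y z _ _ ih1 ih2 => exact ih1.trans ih2

/-- the constant `j` in the free algebra -/
noncomputable def el (n j : ℕ) : Car allC comp_allC n ∅ := cls ∅ (cst comp_allC n j rfl)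

theorem el_inj {n i j : ℕ} (h : el n i = el n j) : i = j := by
  have h1 := eqv_empty (cls_eq.mp h)
  rw [tok_cst, tok_cst] at h1
  omega

/-- merging the first constants -/
def merge (n k : ℕ) : Setoid (Car allC comp_allC n ∅) where
  r q q' := q = q' ∨ ((∃ j, j ≤ k ∧ q = el n j) ∧ (∃ j, j ≤ k ∧ q' = el n j))
  iseqv := by
    refine ⟨fun q => Or.inl rfl, ?_, ?_⟩
    · rintro q q' (h | ⟨h1, h2⟩)
      · exact Or.inl h.symm
      · exact Or.inr ⟨h2, h1⟩
    · rintro q q' q'' (h | ⟨h1, h2⟩) (h' | ⟨h3, h4⟩)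
      · exact Or.inl (h.trans h')
      · rw [h]; exact Or.inr ⟨h3, h4⟩
      · rw [← h']; exact Or.inr ⟨h1, h2⟩
      · exact Or.inr ⟨h1, h4⟩

theorem not_acc (n : ℕ) : ¬ (VA.pres n ∅).ACC := by
  intro h
  apply h
  refine ⟨merge n, ?_, ?_⟩
  · intro k f hf a b _
    left
    exact (op_eq (I := allC) (hI := comp_allC) (n := n) (U := ∅) f hf a).trans
      (op_eq (I := allC) (hI := comp_allC) (n := n) (U := ∅) f hf b).symm
  · apply strictMono_nat_of_lt_succ
    intro k
    refine lt_of_le_not_ge ?_ ?_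
    · rintro q q' (h | ⟨⟨j, h1, h2⟩, ⟨j', h3, h4⟩⟩)
      · exact Or.inl h
      · exact Or.inr ⟨⟨j, by omega, h2⟩, ⟨j', by omega, h4⟩⟩
    · intro h
      have h1 : (merge n (k + 1)) (el n 0) (el n (k + 1)) :=
        Or.inr ⟨⟨0, by omega, rfl⟩, ⟨k + 1, le_rfl, rfl⟩⟩
      rcases h h1 with h2 | ⟨_, ⟨j, h3, h4⟩⟩
      · have := el_inj h2
        omega
      · have := el_inj h4
        omega

/-- There is a nontrivial variety such that for every `n ≥ 1` the class of its `n`-generated c.e.
members fails the ascending chain condition, while the isomorphism relation of this class is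
computably bireducible with equality of c.e. sets, so that it is not `Σ⁰₃`-complete. -/
theorem result : ∃ V : Variety, V.IsNontrivial ∧ ∀ n : ℕ, 1 ≤ n →
    ¬ V.ClassACC n ∧ ¬ Sigma3Complete (V.isoRel n) ∧
    CRed (V.isoRel n) EqCE ∧ CRed EqCE (V.isoRel n) := by
  refine ⟨VA, VA_nontrivial, fun n _ => ⟨?_, ?_, ?_, ?_⟩⟩
  · intro h
    obtain ⟨e, he⟩ := exists_index (P := fun _ => False) re_false
    have h1 := h e
    rw [he] at h1
    have h2 : {x : ℕ | False} = ∅ := by ext x; exact Iff.rfl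
    rw [h2] at h1
    exact not_acc n h1
  · exact not_complete_of_red (isoRel_red comp_allC n)
  · exact isoRel_red comp_allC n
  · exact red_isoRel n

end Pool.Agent.Results.MP_aec1d5_lc.NonACCNotComplete
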